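import Pool.Agent.Results.MP_68e4fd_al.Undecidable
import Pool.Agent.Y669.TA.Mcg

/-! Subgroups of mapping class groups generated by fixed words and one variable word. Stronger form
of `Undecidable`. -/

set_option autoImplicit false

namespace Pool.Agent.Results.MP_68e4fd_al.OneWord

open Pool.Agent.Helper270 Pool.Agent.Helper270.FIN Pool.Agent.Helper270.Split Pool.Agent.Helper270.MCG

/-- For every genus `g ≥ 3` there is a finite set `E` of mapping classes such that for every finite
tuple `S` of mapping classes which generates a subgroup containing `E` (for instance, every finite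
generating tuple of the mapping class group) there is a fixed list `F` of words in the letters
of `S` and their inverses such that, for the subgroups `H_w` generated by the word `w` and the words
in `F`:
(1) for every recursively enumerable set `W` there is a computable function from the natural
numbers to words `w n` such that `H_{w n}` is freely indecomposable if and only if `n` is in `W`, and
splits over the infinite cyclic group if and only if `n` is not in `W`;
(2) neither the set of the words `w` such that `H_w` is not freely indecomposable nor the set of the
words `w` such that `H_w` splits over the infinite cyclic group is recursively enumerable.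
(3) In particular, for every finite generating tuple it is undecidable whether the subgroup
generated by a given finite list of words is freely indecomposable (Q1), and whether it splits over
the infinite cyclic group (Q2). -/
theorem result :
    (∀ g : ℕ, 3 ≤ g → ∃ E : Set (MappingClassGroup g), E.Finite ∧
      ∀ (k : ℕ) (S : Fin k → MappingClassGroup g), E ⊆ Subgroup.closure (Set.range S) →
        ∃ F : List (List (Fin k × Bool)),
          (∀ W : ℕ → Prop, REPred W → ∃ w : ℕ → List (Fin k × Bool), Computable w ∧ ∀ n,
            (FreelyIndecomposable (subgroupOfWords S (w n :: F)) ↔ W n) ∧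
            (SplitsOverZ (subgroupOfWords S (w n :: F)) ↔ ¬ W n)) ∧
          (¬ REPred fun w : List (Fin k × Bool) =>
            ¬ FreelyIndecomposable (subgroupOfWords S (w :: F))) ∧
          (¬ REPred fun w : List (Fin k × Bool) => SplitsOverZ (subgroupOfWords S (w :: F)))) ∧
    (∀ g : ℕ, 3 ≤ g → ∀ (k : ℕ) (S : Fin k → MappingClassGroup g),
      Subgroup.closure (Set.range S) = ⊤ →
        (¬ ComputablePred fun ws : List (List (Fin k × Bool)) =>
          FreelyIndecomposable (subgroupOfWords S ws)) ∧
        (¬ ComputablePred fun ws : List (List (Fin k × Bool)) =>
          SplitsOverZ (subgroupOfWords S ws))) := by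
  refine ⟨?_, Pool.Agent.Results.MP_68e4fd_al.Undecidable.result.1⟩
  intro g hg
  obtain ⟨j, rfl⟩ := Nat.exists_eq_add_of_le hg
  obtain ⟨E, hE, h⟩ := Pool.Agent.Y669.TA.Mcg.fixed_words
    fun m => Pool.Agent.Helper270.EX.frame m j
  refine ⟨E, hE, fun k S hS => ?_⟩
  obtain ⟨F, hF⟩ := h k S hS
  obtain ⟨W, hW, hco⟩ := Pool.Agent.Y669.TA.SysU.exists_re_not_co
  obtain ⟨w, hw, h1⟩ := hF W hW
  refine ⟨F, hF, fun hr => hco ?_, fun hr => hco ?_⟩
  · have h2 : REPred fun n => ¬ FreelyIndecomposable (subgroupOfWords S (w n :: F)) :=
      Partrec.comp hr hw
    exact h2.of_eq fun n => not_congr (h1 n).1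
  · have h2 : REPred fun n => SplitsOverZ (subgroupOfWords S (w n :: F)) :=
      Partrec.comp hr hw
    exact h2.of_eq fun n => (h1 n).2

end Pool.Agent.Results.MP_68e4fd_al.OneWord
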